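import Mathlib
set_option autoImplicit false

namespace Pool.Agent.H.MP_3b4555_co
open Finset

/-- thresholds -/
def a (k : ℕ) (x : ℕ) : ℕ := if x ≤ k then x * k else k * k * 2 ^ (x - k)

theorem a_succ_lo {k x : ℕ} (h : x < k) : a k (x + 1) = a k x + k := by
  unfold a
  rw [if_pos (by omega), if_pos (by omega)]
  ring

theorem a_succ_hi {k x : ℕ} (h : k ≤ x) : a k (x + 1) = 2 * a k x := by
  unfold a
  rw [if_neg (by omega)]
  split_ifs with h1
  · rw [show x = k by omega, show k + 1 - k = 1 by omega]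
    ring
  · rw [show x + 1 - k = x - k + 1 by omega]
    ring

theorem a_mono (k : ℕ) : Monotone (a k) := monotone_nat_of_le_succ fun x => by
  rcases lt_or_ge x k with h | h
  · rw [a_succ_lo h]; omega
  · rw [a_succ_hi h]; omega

structure Num (k N : ℕ) (L E K p : ℕ → ℕ) : Prop where
  K0 : K 0 = 0
  KS : ∀ n, K (n + 1) = L n
  W : ∀ n ≤ N, E n + K n < a k (p n + 1)
  P : ∀ n ≤ N, p n < 2 * k
  S : ∀ n < N, p n + p (n + 1) < 2 * k
  X : ∀ n < N, a k (2 * k - p (n + 1)) ≤ E n + L (n + 1)
  F : ∀ m ≤ N, ∀ n ≤ N, (m + n) % 2 = 1 → ∀ x < 2 * k,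
    a k (x + 1) ≤ E m + L n ∨ a k (2 * k - x) ≤ E n + L m

theorem Num.lt {k N : ℕ} {L E K p : ℕ → ℕ} (h : Num k N L E K p) {n : ℕ} (hn : n < N) :
    K n < L (n + 1) := by
  have h1 := h.W n hn.le
  have h2 := h.X n hn
  have h3 := h.S n hn
  have h4 := a_mono k (show p n + 1 ≤ 2 * k - p (n + 1) by omega)
  omega

theorem Num.kill {k N : ℕ} {L E K p : ℕ → ℕ} (h : Num k N L E K p) {n : ℕ} (hn : n < N)
    (h1 : p (n + 1) < k) (h2 : p n + p (n + 1) + 1 < 2 * k) :
    a k (2 * k - 1 - p (n + 1)) ≤ L (n + 1) := by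
  have h3 := h.W n hn.le
  have h4 := h.X n hn
  have h5 := a_mono k (show p n + 1 ≤ 2 * k - 1 - p (n + 1) by omega)
  have h6 := a_succ_hi (show k ≤ 2 * k - 1 - p (n + 1) by omega)
  rw [show 2 * k - 1 - p (n + 1) + 1 = 2 * k - p (n + 1) by omega] at h6
  omega

theorem Num.var {k N : ℕ} {L E K p : ℕ → ℕ} (h : Num k N L E K p) :
    ∑ m ∈ range N, (2 * k - 1 - p m - p (m + 1)) ≤ 3 * k := by
  have key : ∀ n ≤ N, ∀ G, G = ∑ m ∈ range n, (2 * k - 1 - p m - p (m + 1)) →
      (k ≤ p n ∧ G ≤ 2 * k - 1 - p n) ∨ (p n < k ∧ G ≤ p n) ∨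
      (p n < k ∧ a k (2 * k - 1 - p n) ≤ L n ∧ G ≤ k + (2 * k - 1 - p n)) ∨
      (k ≤ p n ∧ a k (p n) ≤ K n ∧ G ≤ k + p n) := by
    intro n
    induction n with
    | zero =>
      intro _ G hG
      rw [sum_range_zero] at hG
      omega
    | succ n ih =>
      intro hn G hG
      rw [sum_range_succ] at hG
      have ih' := ih (by omega) _ rfl
      generalize ∑ m ∈ range n, (2 * k - 1 - p m - p (m + 1)) = G0 at *
      have h1 := h.S n hn
      have h2 := h.kill (n := n) hn
      have h3 := h.lt (n := n) hn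
      have h4 := h.W (n + 1) hn
      have h5 := h.KS n
      rcases ih' with h6 | h6 | h6 | h6
      · by_cases hg : p n + p (n + 1) + 1 < 2 * k
        · have := h2 (by omega) hg
          omega
        · omega
      · by_cases hk : p (n + 1) < k
        · have := h2 hk (by omega)
          omega
        · omega
      · have h7 : 2 * k - 1 - p n ≤ p (n + 1) := by
          by_contra hc
          have := a_mono k (show p (n + 1) + 1 ≤ 2 * k - 1 - p n by omega)
          omega
        have h8 : p (n + 1) = 2 * k - 1 - p n := by omega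
        rw [← h8] at h6
        omega
      · by_cases hg : p n + p (n + 1) + 1 < 2 * k
        · have := h2 (by omega) hg
          omega
        · have h8 : 2 * k - 1 - p (n + 1) = p n := by omega
          rw [h8]
          omega
  have h1 := key N le_rfl _ rfl
  have h2 := h.P N le_rfl
  omega

theorem Num.cnt {k N : ℕ} {L E K p : ℕ → ℕ} (h : Num k N L E K p) : N ≤ 2 * k + 2 := by
  have key : ∀ n, p (n + 1) < k → n + 2 * k + 2 ≤ N → False := by
    intro n hp hN
    have mono : ∀ d, n + 2 * d + 1 ≤ N → L n + d ≤ L (n + 2 * d) ∧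
        E (n + 2 * d + 1) + d ≤ E (n + 1) := by
      intro d
      induction d with
      | zero => simp
      | succ d ih =>
        intro hd
        obtain ⟨h1, h2⟩ := ih (by omega)
        have h3 := h.lt (n := n + 2 * d + 1) (by omega)
        have h4 := h.W (n + 2 * d + 1 + 1 + 1) (by omega)
        have h5 := h.X (n + 2 * d + 1) (by omega)
        have h6 := h.S (n + 2 * d + 1 + 1) (by omega)
        have h7 := a_mono k (show p (n + 2 * d + 1 + 1 + 1) + 1 ≤ 2 * k - p (n + 2 * d + 1 + 1) by omega)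
        rw [h.KS] at h3
        rw [h.KS (n + 2 * d + 1 + 1)] at h4
        rw [show n + 2 * (d + 1) = n + 2 * d + 1 + 1 by ring]
        omega
    obtain ⟨h1, h2⟩ := mono k (by omega)
    have w0 := h.W n (by omega)
    have w1 := h.W (n + 1) (by omega)
    have w2 := h.W (n + 2 * k + 1) (by omega)
    have w3 := h.W (n + 2 * k + 1 + 1) (by omega)
    have s0 := h.S n (by omega)
    have s2 := h.S (n + 2 * k + 1) (by omega)
    have p3 := h.P (n + 2 * k + 1 + 1) (by omega)
    rw [h.KS n] at w1
    rw [h.KS (n + 2 * k)] at w2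
    rw [h.KS (n + 2 * k + 1)] at w3
    have C : ∀ x < k, E n < a k (2 * k - x) → L (n + 2 * k + 1) < a k (2 * k - x) →
        a k x ≤ E (n + 2 * k + 1) + L n := by
      intro x hx c1 c2
      rcases x with _ | x
      · simp [a]
      · have c3 := h.F (n + 2 * k + 1) (by omega) n (by omega) (by omega) x (by omega)
        have c4 := a_succ_hi (show k ≤ 2 * k - (x + 1) by omega)
        rw [show 2 * k - (x + 1) + 1 = 2 * k - x by omega] at c4
        omega
    by_cases hc : p (n + 2 * k + 1 + 1) + p (n + 1) < 2 * k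
    · have m1 := a_mono k (show p n + 1 ≤ 2 * k - p (n + 1) by omega)
      have m2 := a_mono k (show p (n + 2 * k + 1 + 1) + 1 ≤ 2 * k - p (n + 1) by omega)
      have := C (p (n + 1)) hp (by omega) (by omega)
      have := a_succ_lo hp
      omega
    · have e : 2 * k - (2 * k - 1 - p (n + 2 * k + 1 + 1)) = p (n + 2 * k + 1 + 1) + 1 := by omega
      have m1 := a_mono k (show p n + 1 ≤ p (n + 2 * k + 1 + 1) + 1 by omega)
      have m2 := a_mono k
        (show p (n + 2 * k + 1) + 1 ≤ 2 * k - 1 - p (n + 2 * k + 1 + 1) + 1 by omega)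
      have := C (2 * k - 1 - p (n + 2 * k + 1 + 1)) (by omega) (by rw [e]; omega) (by rw [e]; omega)
      have := a_succ_lo (show 2 * k - 1 - p (n + 2 * k + 1 + 1) < k by omega)
      omega
  by_contra hc
  by_cases h1 : p 1 < k
  · exact key 0 h1 (by omega)
  · have := h.S 1 (by omega)
    exact key 1 (by omega) (by omega)

open Classical in
noncomputable def lev (k : ℕ) (u : ℕ∞) : ℕ := Nat.findGreatest (fun x => (a k x : ℕ∞) ≤ u) (2 * k)

theorem lev_le (k : ℕ) (u : ℕ∞) : lev k u ≤ 2 * k := by
  classical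
  exact Nat.findGreatest_le _

theorem le_lev {k x : ℕ} {u : ℕ∞} (hx : x ≤ 2 * k) : x ≤ lev k u ↔ (a k x : ℕ∞) ≤ u := by
  classical
  constructor
  · intro h
    have h1 : (a k (lev k u) : ℕ∞) ≤ u :=
      Nat.findGreatest_spec (P := fun x => (a k x : ℕ∞) ≤ u) (Nat.zero_le _) (by simp [a])
    exact le_trans (by exact_mod_cast a_mono k h) h1
  · exact fun h => Nat.le_findGreatest hx h

theorem lev_mono (k : ℕ) : Monotone (lev k) := fun u _ h =>
  (le_lev (lev_le k u)).2 (((le_lev (lev_le k u)).1 le_rfl).trans h)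

theorem chain {k : ℕ} (e : Bool → ℕ → ℕ) (lam : Bool → ℕ → ℕ → ℕ∞)
    (h0 : ∀ s j, lam s 0 j = 0) (hm : ∀ s t j, lam s t j ≤ lam s (t + 1) j)
    (hc : ∀ s t j (i : ℕ), (i : ℕ∞) < lam s (t + 1) j ↔
      2 * k ≤ lev k (lam s t j + e s j) + lev k (lam (!s) t i + e (!s) i))
    (t : ℕ) : ∀ s j l, l < 2 * k → lev k (lam s t j + e s j) ≤ l →
      l < lev k (lam s (t + 1) j + e s j) → ∃ (N : ℕ) (σ : ℕ → Bool) (L K p : ℕ → ℕ),
      σ N = s ∧ L N = j ∧ p N ≤ l ∧ (∀ n < N, σ (n + 1) = !σ n) ∧ K 0 = 0 ∧ (∀ n, K (n + 1) = L n) ∧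
      (∀ n ≤ N, e (σ n) (L n) + K n < a k (p n + 1)) ∧ (∀ n ≤ N, p n < 2 * k) ∧
      (∀ n < N, p n + p (n + 1) < 2 * k) ∧
      (∀ n < N, a k (2 * k - p (n + 1)) ≤ e (σ n) (L n) + L (n + 1)) ∧
      t + p N ≤ ∑ m ∈ range N, (2 * k - 1 - p m - p (m + 1)) + N + l := by
  induction t with
  | zero =>
    intro s j l h1 h2 _
    refine ⟨0, fun _ => s, fun _ => j, fun n => if n = 0 then 0 else j, fun _ => l, rfl, rfl, le_rfl,
      by simp, by simp, by simp, fun n hn => ?_, fun _ _ => h1, by simp, by simp, by simp⟩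
    rw [h0, zero_add] at h2
    have h3 : ¬ (a k (l + 1) : ℕ∞) ≤ e s j := fun h => by
      have := (le_lev (show l + 1 ≤ 2 * k by omega)).2 h
      omega
    rw [show n = 0 by omega]
    simpa using h3
  | succ t ih =>
    intro s j l h1 h2 h3
    obtain ⟨q, hq⟩ : ∃ q, q = lev k (lam s (t + 1) j + e s j) := ⟨_, rfl⟩
    by_cases hl : lev k (lam s t j + e s j) < q
    · obtain ⟨N, σ, L, K, p, c1, c2, c3, c4, c5, c6, c7, c8, c9, c10, c11⟩ :=
        ih s j (q - 1) (by omega) (by omega) (by omega)
      exact ⟨N, σ, L, K, p, c1, c2, by omega, c4, c5, c6, c7, c8, c9, c10, by omega⟩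
    · have e1 : lev k (lam s t j + e s j) = q := by
        have := lev_mono k (add_le_add_left (hm s t j) (e s j : ℕ∞))
        omega
      have e2 : lam s (t + 1) j < lam s (t + 1 + 1) j := by
        refine lt_of_le_of_ne (hm _ _ _) fun h => ?_
        rw [← h] at h3
        omega
      obtain ⟨i, hi⟩ := ENat.ne_top_iff_exists.1 (ne_top_of_lt e2)
      have e3 := (hc s (t + 1) j i).1 (hi ▸ e2)
      have e4 := mt (hc s t j i).2 (by rw [hi]; exact lt_irrefl _)
      have e5 : lam (!s) (t + 1) i ≤ j := by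
        by_contra h
        have := (hc (!s) t i j).1 (not_le.1 h)
        rw [Bool.not_not] at this
        omega
      obtain ⟨N, σ, L, K, p, c1, c2, c3, c4, c5, c6, c7, c8, c9, c10, c11⟩ :=
        ih (!s) i (2 * k - 1 - q) (by omega) (by omega) (by omega)
      have e6 : a k (2 * k - q) ≤ e (!s) i + j := by
        have h4 := (le_lev (u := lam (!s) (t + 1) i + e (!s) i)
          (show 2 * k - q ≤ 2 * k by omega)).1 (by omega)
        have h5 := h4.trans (add_le_add_left e5 _)
        rw [add_comm] at h5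
        exact_mod_cast h5
      have e7 : e s j + i < a k (q + 1) := by
        have h4 := mt (le_lev (u := lam s (t + 1) j + e s j)
          (show q + 1 ≤ 2 * k by omega)).2 (by omega)
        rw [← hi, not_le, add_comm] at h4
        exact_mod_cast h4
      refine ⟨N + 1, fun n => if n ≤ N then σ n else s, fun n => if n ≤ N then L n else j,
        fun n => if n ≤ N + 1 then K n else j, fun n => if n ≤ N then p n else q, by simp, by simp,
        by simp; omega, fun n hn => ?_, by simpa using c5, fun n => ?_, fun n hn => ?_,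
        fun n hn => ?_, fun n hn => ?_, fun n hn => ?_, ?_⟩
      · rcases Nat.lt_succ_iff_lt_or_eq.1 hn with h | rfl
        · simp only [if_pos h.le, if_pos (Nat.succ_le_of_lt h), c4 n h]
        · simp [c1]
      · by_cases h : n ≤ N
        · simp only [if_pos h, if_pos (Nat.succ_le_succ h), c6]
        · simp only [if_neg h, if_neg (show ¬ n + 1 ≤ N + 1 by omega)]
      · rcases Nat.le_succ_iff.1 hn with h | rfl
        · simp only [if_pos h, if_pos hn, c7 n h]
        · simp only [if_neg (Nat.not_succ_le_self N), if_pos (le_refl (N + 1)), Nat.succ_eq_add_one,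
            c6, c2, e7]
      · by_cases h : n ≤ N
        · simp only [if_pos h, c8 n h]
        · simp only [if_neg h]
          omega
      · rcases Nat.lt_succ_iff_lt_or_eq.1 hn with h | rfl
        · simp only [if_pos h.le, if_pos (Nat.succ_le_of_lt h), c9 n h]
        · simp only [if_neg (Nat.not_succ_le_self n), if_pos (le_refl n)]
          omega
      · rcases Nat.lt_succ_iff_lt_or_eq.1 hn with h | rfl
        · simp only [if_pos h.le, if_pos (Nat.succ_le_of_lt h), c10 n h]
        · simp only [if_neg (Nat.not_succ_le_self n), if_pos (le_refl n), c1, c2, e6]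
      · rw [sum_range_succ, sum_congr rfl (g := fun m => 2 * k - 1 - p m - p (m + 1)) (fun m hm => by
          have := mem_range.1 hm
          simp only [if_pos this.le, if_pos (Nat.succ_le_of_lt this)])]
        simp only [if_neg (Nat.not_succ_le_self N), if_pos (le_refl N)]
        omega

theorem time_le {k : ℕ} (e : Bool → ℕ → ℕ) (lam : Bool → ℕ → ℕ → ℕ∞)
    (h0 : ∀ s j, lam s 0 j = 0) (hm : ∀ s t j, lam s t j ≤ lam s (t + 1) j)
    (hc : ∀ s t j (i : ℕ), (i : ℕ∞) < lam s (t + 1) j ↔
      2 * k ≤ lev k (lam s t j + e s j) + lev k (lam (!s) t i + e (!s) i))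
    (hs : ∀ s j (i : ℕ), ∃ t, (i : ℕ∞) < lam s t j) (s : Bool) (j i : ℕ) :
    (i : ℕ∞) < lam s (7 * k + 4) j := by
  classical
  have F : ∀ s j (i : ℕ), ∀ x < 2 * k, a k (x + 1) ≤ e s j + i ∨ a k (2 * k - x) ≤ e (!s) i + j := by
    intro s j i x hx
    have h1 := Nat.find_spec (hs s j i)
    obtain ⟨t, ht⟩ : ∃ t, Nat.find (hs s j i) = t + 1 :=
      Nat.exists_eq_succ_of_ne_zero fun h => by simp [h, h0] at h1
    have h2 := Nat.find_min (hs s j i) (m := t) (by omega)
    rw [ht, hc] at h1
    have h3 : lam (!s) t i ≤ j := by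
      by_contra h
      rcases t with _ | t
      · simp [h0] at h
      · have := (hc (!s) t i j).1 (not_le.1 h)
        rw [Bool.not_not, add_comm] at this
        exact h2 ((hc s t j i).2 this)
    by_contra h4
    rw [not_or, not_le, not_le] at h4
    have h5 := mt (le_lev (u := lam s t j + e s j) (show x + 1 ≤ 2 * k by omega)).1 (by
      rw [not_le]
      refine lt_of_le_of_lt (add_le_add_left (not_lt.1 h2) _) ?_
      rw [add_comm]
      exact_mod_cast h4.1)
    have h6 := mt (le_lev (u := lam (!s) t i + e (!s) i) (show 2 * k - x ≤ 2 * k by omega)).1 (by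
      rw [not_le]
      refine lt_of_le_of_lt (add_le_add_left h3 _) ?_
      rw [add_comm]
      exact_mod_cast h4.2)
    omega
  have B : ∀ t s j, lev k (lam s t j + e s j) < lev k (lam s (t + 1) j + e s j) → t ≤ 7 * k + 2 := by
    intro t s j h
    have hl := lev_le k (lam s (t + 1) j + e s j)
    obtain ⟨N, σ, L, K, p, c1, c2, c3, c4, c5, c6, c7, c8, c9, c10, c11⟩ :=
      chain e lam h0 hm hc t s j _ (by omega) le_rfl h
    have par : ∀ n ≤ N, σ n = if n % 2 = 0 then σ 0 else !σ 0 := by
      intro n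
      induction n with
      | zero => simp
      | succ n ih =>
        intro hn
        rw [c4 n hn, ih (by omega)]
        by_cases h2 : n % 2 = 0
        · rw [if_pos h2, if_neg (by omega)]
        · rw [if_neg h2, if_pos (by omega), Bool.not_not]
    have H : Num k N L (fun n => e (σ n) (L n)) K p := ⟨c5, c6, c7, c8, c9, c10, by
      intro m hm n hn hmn x hx
      have : σ n = !σ m := by
        rw [par n hn, par m hm]
        by_cases h2 : n % 2 = 0
        · rw [if_pos h2, if_neg (by omega), Bool.not_not]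
        · rw [if_neg h2, if_pos (by omega)]
      rw [this]
      exact F _ _ _ x hx⟩
    have := H.var
    have := H.cnt
    omega
  have st : ∀ d s j, lev k (lam s (7 * k + 3 + d) j + e s j) = lev k (lam s (7 * k + 3) j + e s j) := by
    intro d s j
    induction d with
    | zero => rfl
    | succ d ih =>
      have h1 := lev_mono k (add_le_add_left (hm s (7 * k + 3 + d) j) (e s j : ℕ∞))
      have h2 := mt (B (7 * k + 3 + d) s j) (by omega)
      rw [← add_assoc]
      omega
  obtain ⟨t, ht⟩ := hs s j i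
  have h1 : (i : ℕ∞) < lam s (7 * k + 3 + t + 1) j :=
    ht.trans_le (monotone_nat_of_le_succ (fun t => hm s t j) (by omega))
  rw [hc, st, st, ← hc] at h1
  exact h1

end Pool.Agent.H.MP_3b4555_co
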